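import Pool.Agent.Helper51.LT.St

/-!
# Project LT, module UNF: the pointwise bound implies the uniform bound
-/

set_option autoImplicit false

namespace Pool.Agent.Helper67.LT

open Complex MeasureTheory Set Metric Filter Topology
open scoped Real ENNReal
open Pool.Agent.Helper51.LT

/-- Robustness of a conjunction. -/
theorem rob_and {p q : (ℂ → ℂ) → Prop} {f : ℂ → ℂ} (hp : Rob p f) (hq : Rob q f) :
    Rob (fun F => p F ∧ q F) f := by
  obtain ⟨η₁, h1, r₁, hr1, hr1', H1⟩ := hp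
  obtain ⟨η₂, h2, r₂, hr2, hr2', H2⟩ := hq
  refine ⟨min η₁ η₂, lt_min h1 h2, max r₁ r₂, le_max_of_le_left hr1, max_lt hr1' hr2', ?_⟩
  intro F hF hc
  exact ⟨H1 F hF fun z hz => (hc z (hz.trans (le_max_left _ _))).trans (min_le_left _ _),
    H2 F hF fun z hz => (hc z (hz.trans (le_max_right _ _))).trans (min_le_right _ _)⟩

theorem pp_id : PP (fun z => z) := by
  refine ⟨⟨2, by norm_num, differentiableOn_id, fun x _ y _ h => h⟩, rfl, ?_⟩
  intro z hz
  exact (mem_ball_zero_iff.1 hz).le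

theorem hUnf (hNn : StNn) (hGH : StGH) (hStp : StStp) (hInj : StInj) : StUnf := by
  intro β γ hβ hγ
  have h0 := hNn β hβ
  by_contra hno
  have hU : HU γ := by
    intro C
    by_contra hc
    apply hno
    refine ⟨max C 1, le_max_right _ _, ?_⟩
    intro g hg r hr0 hr1
    by_contra hlt
    apply hc
    refine ⟨g, r, hg, hr0, hr1, lt_of_le_of_lt ?_ (not_le.1 hlt)⟩
    exact mul_le_mul_of_nonneg_right (le_max_left _ _) (Real.rpow_nonneg (by linarith) _)
  have hdiff : ∀ f, PP f → DifferentiableOn ℂ f (ball 0 1) := by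
    intro f hf
    obtain ⟨⟨R, hR, hRf⟩, -, -⟩ := hf
    exact hRf.1.mono (ball_subset_ball hR.le)
  have hstep : ∀ f, PP f → ∀ (η r : ℝ) (j : ℕ), 0 < η → r < 1 →
      ∃ f₁, PP f₁ ∧ (∀ z : ℂ, ‖z‖ ≤ r → ‖f₁ z - f z‖ ≤ η) ∧
        Rob (fun F => QP β j F ∧ InjOn F (closedBall 0 (1 - 1 / ((j : ℝ) + 2)))) f₁ := by
    intro f hf η r j hη hr
    obtain ⟨f₁, h1, h2, h3⟩ := hStp β γ h0 hγ hU f hf η r j hη hr
    have h1' := h1
    obtain ⟨⟨R, hR, hRf⟩, h4, h5⟩ := h1'
    have hj : (0 : ℝ) ≤ (j : ℝ) := Nat.cast_nonneg j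
    have hpos : (0 : ℝ) < (j : ℝ) + 2 := by linarith
    have hle : 1 / ((j : ℝ) + 2) ≤ 1 := by
      rw [div_le_one hpos]; linarith
    have hgt : 0 < 1 / ((j : ℝ) + 2) := by positivity
    exact ⟨f₁, h1, h2, rob_and h3 (hInj f₁ R _ hR hRf (by linarith) (by linarith))⟩
  obtain ⟨F, hF, hq, -, s, hs, hlim⟩ := hGH PP
    (fun j F => QP β j F ∧ InjOn F (closedBall 0 (1 - 1 / ((j : ℝ) + 2))))
    (fun z => z) hdiff pp_id hstep 1 one_pos
  have hBU : BU F := by
    refine ⟨⟨hF, ?_⟩, ?_⟩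
    · intro x hx y hy hxy
      have hx' := mem_ball_zero_iff.1 hx
      have hy' := mem_ball_zero_iff.1 hy
      set m := max ‖x‖ ‖y‖ with hm
      have hm1 : m < 1 := max_lt hx' hy'
      obtain ⟨j, hj⟩ := exists_nat_gt (1 / (1 - m))
      have h1m : 0 < 1 - m := by linarith
      have hj2 : 1 / ((j : ℝ) + 2) ≤ 1 - m := by
        have hpos : (0 : ℝ) < (j : ℝ) + 2 := by positivity
        rw [div_le_iff₀ hpos]
        rw [div_lt_iff₀ h1m] at hj
        nlinarith
      apply (hq j).2 _ _ hxy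
      · rw [mem_closedBall_zero_iff]
        have : ‖x‖ ≤ m := le_max_left _ _
        linarith
      · rw [mem_closedBall_zero_iff]
        have : ‖y‖ ≤ m := le_max_right _ _
        linarith
    · intro z hz
      exact le_of_tendsto (hlim z hz).norm (Eventually.of_forall fun k => (hs k).2.2 z hz)
  obtain ⟨C, hC⟩ := hβ F hBU
  obtain ⟨j, hj⟩ := exists_nat_ge C
  obtain ⟨r, hr0, hr1, hlt⟩ := (hq j).1
  have h1 := hC r hr0 hr1
  have h2 : C * (1 - r) ^ (-β) ≤ j * (1 - r) ^ (-β) :=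
    mul_le_mul_of_nonneg_right hj (Real.rpow_nonneg (by linarith) _)
  linarith

end Pool.Agent.Helper67.LT
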