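import Pool.Agent.Helper69.LT.St
import Pool.Agent.Helper84.LE.BGR

/-!
# Project LT (MP_65faa7), module BR: factorisation over a pivotal edge
-/

set_option autoImplicit false

open scoped BigOperators ENNReal
open Pool.LE Pool.NL

namespace Pool.LT

namespace BRM

variable {V : Type} [DecidableEq V] {R : Type} [CommRing R]

/-- a connection uses the edge `ab` in one of the two directions, or not at all -/
theorem er_cases {η : Finset (Sym2 V)} (a b : V) {v y : V} (q : (gr η).Walk v y) :
    con (η.erase s(a, b)) v y ∨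
      (con (η.erase s(a, b)) v a ∧ con (η.erase s(a, b)) b y) ∨
      (con (η.erase s(a, b)) v b ∧ con (η.erase s(a, b)) a y) := by
  induction q with
  | nil => exact Or.inl (con_refl _ _)
  | cons hadj r ih =>
    rename_i c d e
    have h1 := gr_adj.1 hadj
    by_cases he : s(c, d) = s(a, b)
    · rcases Sym2.eq_iff.1 he with ⟨rfl, rfl⟩ | ⟨rfl, rfl⟩
      · rcases ih with h | ⟨h, h'⟩ | ⟨h, h'⟩
        · exact Or.inr (Or.inl ⟨con_refl _ _, h⟩)
        · exact Or.inr (Or.inl ⟨con_refl _ _, h'⟩)
        · exact Or.inl h'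
      · rcases ih with h | ⟨h, h'⟩ | ⟨h, h'⟩
        · exact Or.inr (Or.inr ⟨con_refl _ _, h⟩)
        · exact Or.inl h'
        · exact Or.inr (Or.inr ⟨con_refl _ _, h'⟩)
    · have h2 : con (η.erase s(a, b)) c d := con_of_mem (Finset.mem_erase.2 ⟨he, h1.1⟩)
      rcases ih with h | ⟨h, h'⟩ | ⟨h, h'⟩
      · exact Or.inl (con_trans h2 h)
      · exact Or.inr (Or.inl ⟨con_trans h2 h, h'⟩)
      · exact Or.inr (Or.inr ⟨con_trans h2 h, h'⟩)

theorem er_mono (η : Finset (Sym2 V)) (a b : V) {v y : V}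
    (h : con (η.erase s(a, b)) v y) : con η v y :=
  con_mono (Finset.erase_subset _ _) h

/-- the cluster of `v` -/
theorem con_iff {η : Finset (Sym2 V)} {v a b : V} (hab : s(a, b) ∈ η)
    (hva : con (η.erase s(a, b)) v a) (hvb : ¬ con (η.erase s(a, b)) v b) (y : V) :
    con η v y ↔ con (η.erase s(a, b)) v y ∨ con (η.erase s(a, b)) b y := by
  constructor
  · rintro ⟨q⟩
    rcases er_cases a b q with h | ⟨-, h⟩ | ⟨h, -⟩
    · exact Or.inl h
    · exact Or.inr h
    · exact absurd h hvb
  · rintro (h | h)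
    · exact er_mono η a b h
    · exact con_trans (er_mono η a b hva) (con_trans (con_of_mem hab) (er_mono η a b h))

theorem pw_mul {L : Finset V} {r : V → R} {η : Finset (Sym2 V)} {v a b : V} (hab : s(a, b) ∈ η)
    (hva : con (η.erase s(a, b)) v a) (hvb : ¬ con (η.erase s(a, b)) v b) :
    pw L r η v = pw L r (η.erase s(a, b)) v * pw L r (η.erase s(a, b)) b := by
  classical
  unfold pw
  rw [← Finset.prod_union]
  · refine Finset.prod_congr ?_ (fun _ _ => rfl)
    ext y
    rw [Finset.mem_union, Finset.mem_filter, Finset.mem_filter, Finset.mem_filter,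
      con_iff hab hva hvb y, ← and_or_left]
  · rw [Finset.disjoint_left]
    intro y h1 h2
    exact hvb (con_trans (Finset.mem_filter.1 h1).2 (con_symm (Finset.mem_filter.1 h2).2))

theorem mT_pos {L : Finset V} {r : V → R} {η : Finset (Sym2 V)} {v x : V} (h : con η v x) :
    mT L r η v x = pw L r η v := by
  unfold mT
  rw [if_pos h]

theorem mT_neg {L : Finset V} {r : V → R} {η : Finset (Sym2 V)} {v x : V} (h : ¬ con η v x) :
    mT L r η v x = 0 := by
  unfold mT
  rw [if_neg h]

/-- the factorisation for a configuration containing the edge -/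
theorem mT_mul {L : Finset V} {r : V → R} {η : Finset (Sym2 V)} {v x a b : V} (hab : s(a, b) ∈ η)
    (hvb : ¬ con (η.erase s(a, b)) v b) (hvx : ¬ con (η.erase s(a, b)) v x) :
    mT L r η v x = mT L r (η.erase s(a, b)) v a * mT L r (η.erase s(a, b)) b x := by
  by_cases hva : con (η.erase s(a, b)) v a
  · by_cases hbx : con (η.erase s(a, b)) b x
    · rw [mT_pos hva, mT_pos hbx, mT_pos ((con_iff hab hva hvb x).2 (Or.inr hbx)),
        pw_mul hab hva hvb]
    · rw [mT_neg hbx, mul_zero]
      refine mT_neg fun h => ?_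
      rcases (con_iff hab hva hvb x).1 h with h | h
      · exact hvx h
      · exact hbx h
  · rw [mT_neg hva, zero_mul]
    refine mT_neg ?_
    rintro ⟨q⟩
    rcases er_cases a b q with h | ⟨h, -⟩ | ⟨h, -⟩
    · exact hvx h
    · exact hva h
    · exact hvb h

theorem rst_erase (ω : Finset (Sym2 V)) (A : Set V) (e : Sym2 V) :
    rst (ω.erase e) A = (rst ω A).erase e := by
  ext f
  rw [Finset.mem_erase, mem_rst, mem_rst, Finset.mem_erase]
  tauto

/-- no connection to a forbidden point -/
theorem not_con_rst {ω : Finset (Sym2 V)} {A : Set V} {v a : V} (hv : v ∉ A) (ha : a ∈ A) :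
    ¬ con (rst ω A) v a := by
  intro h
  by_cases hav : a = v
  · exact hv (hav ▸ ha)
  · obtain ⟨b, -, hb, -⟩ := con_cases (con_symm h) hav
    exact (mem_rst.1 hb).2 a (Sym2.mem_mk_left a b) ha

end BRM

theorem hBR : SBR := by
  intro V _ R _ L r ω v x a b hp
  obtain ⟨hab, hva, hbx, hvx⟩ := hp
  have hvb : ¬ con (ω.erase s(a, b)) v b := fun h => hvx (con_trans h hbx)
  refine ⟨BRM.mT_mul hab hvb hvx, fun A => ?_⟩
  unfold mA
  by_cases hv : v ∈ A
  · rw [if_pos hv, if_pos hv, zero_mul]
  rw [if_neg hv, if_neg hv, BRM.rst_erase]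
  have hsub : (rst ω A).erase s(a, b) ⊆ ω.erase s(a, b) := Finset.erase_subset_erase _ (rst_subset ω A)
  have hvx' : ¬ con ((rst ω A).erase s(a, b)) v x := fun h => hvx (con_mono hsub h)
  have hvb' : ¬ con ((rst ω A).erase s(a, b)) v b := fun h => hvb (con_mono hsub h)
  by_cases hr : s(a, b) ∈ rst ω A
  · have hbA : b ∉ A := (mem_rst.1 hr).2 b (Sym2.mem_mk_right a b)
    rw [if_neg hbA]
    exact BRM.mT_mul hr hvb' hvx'
  · have h0 : (rst ω A).erase s(a, b) = rst ω A := Finset.erase_eq_of_notMem hr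
    rw [h0] at hvx' ⊢
    rw [BRM.mT_neg hvx']
    by_cases hbA : b ∈ A
    · rw [if_pos hbA, mul_zero]
    · by_cases haA : a ∈ A
      · rw [BRM.mT_neg (BRM.not_con_rst hv haA), zero_mul]
      · exfalso
        refine hr (mem_rst.2 ⟨hab, fun y hy => ?_⟩)
        rcases Sym2.mem_iff.1 hy with rfl | rfl
        · exact haA
        · exact hbA

end Pool.LT

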