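import Pool.Agent.Helper49.LT.StB

/-!
# Project LT, module TAY
-/

set_option autoImplicit false

open MeasureTheory Set Filter Metric Topology

namespace Pool.Agent.Helper67.LT

open Helper49.LT Helper97.CB

/-- the parameter space -/
abbrev EE : Type := (ℂ × ℂ) × (ℝ × ℝ)

/-- first direction -/
def e1 : EE := (0, (1, 0))
/-- second direction -/
def e2 : EE := (0, (0, 1))

theorem norm_e1 : ‖e1‖ = 1 := by simp [e1, Prod.norm_def]
theorem norm_e2 : ‖e2‖ = 1 := by simp [e2, Prod.norm_def]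

theorem lin_dec (L : EE →L[ℝ] ℝ) (z : ℝ × ℝ) : L (0, z) = z.1 * L e1 + z.2 * L e2 := by
  have h : ((0, z) : EE) = z.1 • e1 + z.2 • e2 := by
    simp [e1, e2]
  rw [h, map_add, map_smul, map_smul]
  simp

theorem norm_le_add (p : EE) : ‖p‖ ≤ ‖p.1‖ + ‖p.2‖ := by
  rw [Prod.norm_def]
  exact max_le (by linarith [norm_nonneg p.2]) (by linarith [norm_nonneg p.1])

theorem norm_seg (v : ℂ × ℂ) (z : ℝ × ℝ) {t : ℝ} (h0 : 0 ≤ t) (h1 : t ≤ 1) :
    ‖((v, t • z) : EE)‖ ≤ ‖((v, z) : EE)‖ := by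
  rw [Prod.norm_def, Prod.norm_def]
  refine max_le_max le_rfl ?_
  show ‖t • z‖ ≤ ‖z‖
  rw [norm_smul, Real.norm_eq_abs, abs_of_nonneg h0]
  nlinarith [norm_nonneg z]

theorem norm_zero_snd (v : ℂ × ℂ) : ‖((v, 0) : EE)‖ = ‖v‖ := by
  rw [Prod.norm_def]; simp

theorem seg_mem {r : ℝ} {v : ℂ × ℂ} {z : ℝ × ℝ} (h : ((v, z) : EE) ∈ ball (0 : EE) r) {t : ℝ}
    (h0 : 0 ≤ t) (h1 : t ≤ 1) : ((v, t • z) : EE) ∈ ball (0 : EE) r := by
  rw [mem_ball_zero_iff] at *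
  exact lt_of_le_of_lt (norm_seg v z h0 h1) h

theorem zero_mem' {r : ℝ} {v : ℂ × ℂ} {z : ℝ × ℝ} (h : ((v, z) : EE) ∈ ball (0 : EE) r) :
    ((v, 0) : EE) ∈ ball (0 : EE) r := by
  have := seg_mem h (le_refl (0 : ℝ)) zero_le_one
  simpa using this

/-- derivative along the segment -/
theorem hasDerivAt_seg {f : EE → ℝ} {v : ℂ × ℂ} {z : ℝ × ℝ} {t : ℝ}
    (h : DifferentiableAt ℝ f (v, t • z)) :
    HasDerivAt (fun s : ℝ => f (v, s • z)) (fderiv ℝ f (v, t • z) (0, z)) t := by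
  have h1 : HasDerivAt (fun s : ℝ => ((v, s • z) : EE)) (0, z) t := by
    have h2 : HasDerivAt (fun s : ℝ => s • z) z t := by
      simpa using (hasDerivAt_id t).smul_const z
    exact (hasDerivAt_const t v).prodMk h2
  exact h.hasFDerivAt.comp_hasDerivAt t h1

theorem diffAt {f : EE → ℝ} {r : ℝ} {n : WithTop ℕ∞} (hn : 1 ≤ n) (hf : ContDiffOn ℝ n f (ball 0 r))
    {p : EE} (hp : p ∈ ball (0 : EE) r) : DifferentiableAt ℝ f p :=
  ((hf.contDiffAt (isOpen_ball.mem_nhds hp)).differentiableAt (by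
    intro h0; rw [h0] at hn; exact absurd hn (by decide)))

theorem dir_contDiffOn {f : EE → ℝ} {r : ℝ} (hf : ContDiffOn ℝ 5 f (ball 0 r)) (e : EE) :
    ContDiffOn ℝ 4 (fun p => fderiv ℝ f p e) (ball 0 r) := by
  have h : ContDiffOn ℝ 4 (fderiv ℝ f) (ball 0 r) :=
    hf.fderiv_of_isOpen isOpen_ball (by norm_num)
  exact h.clm_apply contDiffOn_const

/-- second order expansion for a function of third order -/
theorem tayA (h₁ : StSof) {f : EE → ℝ} {r C : ℝ} (hr : 0 < r) (hf : ContDiffOn ℝ 5 f (ball 0 r))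
    (h : ∀ p ∈ ball (0 : EE) r, |f p| ≤ C * ‖p‖ ^ 3) :
    ∃ C' r' : ℝ, 0 ≤ C' ∧ 0 < r' ∧ r' ≤ r ∧
      (∀ p ∈ ball (0 : EE) r', ‖fderiv ℝ f p‖ ≤ C' * ‖p‖ ^ 2) ∧
      (∀ p ∈ ball (0 : EE) r', |f p - f (p.1, 0) - fderiv ℝ f (p.1, 0) (0, p.2)| ≤
        C' * ((‖p.1‖ + ‖p.2‖) * ‖p.2‖ ^ 2)) := by
  obtain ⟨C1, r1, hC1, hr1, hr1r, hd, -⟩ := h₁ EE f r C 3 hr (by norm_num) (by norm_num)
    (hf.of_le (by norm_num)) h
  have hf1 : ContDiffOn ℝ 5 f (ball 0 r1) := hf.mono (ball_subset_ball hr1r)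
  have hb : ∀ e : EE, ‖e‖ = 1 → ∃ C2 r2 : ℝ, 0 ≤ C2 ∧ 0 < r2 ∧ r2 ≤ r1 ∧
      ∀ p ∈ ball (0 : EE) r2, ∀ q ∈ ball (0 : EE) r2,
        |fderiv ℝ f p e - fderiv ℝ f q e| ≤ C2 * (‖p - q‖ * (‖p‖ + ‖q‖)) := by
    intro e he
    obtain ⟨C2, r2, hC2, hr2, hr2r, -, h2⟩ := h₁ EE (fun p => fderiv ℝ f p e) r1 C1 2 hr1 (le_refl 2)
      (by norm_num) (dir_contDiffOn hf1 e) (fun p hp => by
        have a := (fderiv ℝ f p).le_opNorm e
        rw [he, mul_one, Real.norm_eq_abs] at a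
        exact a.trans (hd p hp))
    refine ⟨C2, r2, hC2, hr2, hr2r, fun p hp q hq => ?_⟩
    have := h2 p hp q hq
    simpa using this
  obtain ⟨C2, r2, hC2, hr2, hr2r, h2⟩ := hb e1 norm_e1
  obtain ⟨C3, r3, hC3, hr3, hr3r, h3⟩ := hb e2 norm_e2
  refine ⟨C1 + 2 * C2 + 2 * C3, min r2 r3, by positivity, lt_min hr2 hr3,
    (min_le_left _ _).trans (hr2r.trans hr1r), fun p hp => ?_, fun p hp => ?_⟩
  · have hp1 : p ∈ ball (0 : EE) r1 :=
      ball_subset_ball ((min_le_left _ _).trans hr2r) hp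
    refine (hd p hp1).trans ?_
    refine mul_le_mul_of_nonneg_right (by linarith) (by positivity)
  · obtain ⟨v, z⟩ := p
    show |f (v, z) - f (v, 0) - fderiv ℝ f (v, 0) (0, z)| ≤ _ * ((‖v‖ + ‖z‖) * ‖z‖ ^ 2)
    have hin : ∀ t : ℝ, 0 ≤ t → t ≤ 1 → ((v, t • z) : EE) ∈ ball (0 : EE) (min r2 r3) :=
      fun t h0 h1 => seg_mem hp h0 h1
    have h0m : ((v, 0) : EE) ∈ ball (0 : EE) (min r2 r3) := zero_mem' hp
    set M : ℝ := (2 * C2 + 2 * C3) * ((‖v‖ + ‖z‖) * ‖z‖ ^ 2) with hM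
    have key : ∀ t ∈ Icc (0 : ℝ) 1,
        |fderiv ℝ f (v, t • z) (0, z) - fderiv ℝ f (v, 0) (0, z)| ≤ M := by
      intro t ht
      have ha := h2 _ (ball_subset_ball (min_le_left _ _) (hin t ht.1 ht.2)) _
        (ball_subset_ball (min_le_left _ _) h0m)
      have hc := h3 _ (ball_subset_ball (min_le_right _ _) (hin t ht.1 ht.2)) _
        (ball_subset_ball (min_le_right _ _) h0m)
      have hn1 : ‖((v, t • z) : EE) - (v, 0)‖ ≤ ‖z‖ := by
        have : ((v, t • z) : EE) - (v, 0) = (0, t • z) := by simp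
        rw [this, Prod.norm_def]
        simp only [norm_zero]
        refine max_le (norm_nonneg _) ?_
        rw [norm_smul, Real.norm_eq_abs, abs_of_nonneg ht.1]
        nlinarith [norm_nonneg z, ht.2]
      have hn2 : ‖((v, t • z) : EE)‖ + ‖((v, 0) : EE)‖ ≤ 2 * (‖v‖ + ‖z‖) := by
        have a := norm_seg v z ht.1 ht.2
        have b := norm_le_add ((v, z) : EE)
        have c := norm_zero_snd v
        simp only at b
        linarith [norm_nonneg z]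
      have hn3 : ‖((v, t • z) : EE) - (v, 0)‖ * (‖((v, t • z) : EE)‖ + ‖((v, 0) : EE)‖) ≤
          ‖z‖ * (2 * (‖v‖ + ‖z‖)) :=
        mul_le_mul hn1 hn2 (by positivity) (norm_nonneg _)
      rw [lin_dec, lin_dec]
      have hz1 : |z.1| ≤ ‖z‖ := norm_fst_le z
      have hz2 : |z.2| ≤ ‖z‖ := norm_snd_le z
      have i1 : |z.1 * (fderiv ℝ f (v, t • z) e1 - fderiv ℝ f (v, 0) e1)| ≤
          ‖z‖ * (C2 * (‖z‖ * (2 * (‖v‖ + ‖z‖)))) := by
        rw [abs_mul]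
        exact mul_le_mul hz1 (ha.trans (mul_le_mul_of_nonneg_left hn3 hC2)) (abs_nonneg _)
          (norm_nonneg _)
      have i2 : |z.2 * (fderiv ℝ f (v, t • z) e2 - fderiv ℝ f (v, 0) e2)| ≤
          ‖z‖ * (C3 * (‖z‖ * (2 * (‖v‖ + ‖z‖)))) := by
        rw [abs_mul]
        exact mul_le_mul hz2 (hc.trans (mul_le_mul_of_nonneg_left hn3 hC3)) (abs_nonneg _)
          (norm_nonneg _)
      calc |z.1 * fderiv ℝ f (v, t • z) e1 + z.2 * fderiv ℝ f (v, t • z) e2 -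
            (z.1 * fderiv ℝ f (v, 0) e1 + z.2 * fderiv ℝ f (v, 0) e2)|
          = |z.1 * (fderiv ℝ f (v, t • z) e1 - fderiv ℝ f (v, 0) e1) +
            z.2 * (fderiv ℝ f (v, t • z) e2 - fderiv ℝ f (v, 0) e2)| := by
              congr 1; ring
        _ ≤ _ := abs_add_le _ _
        _ ≤ ‖z‖ * (C2 * (‖z‖ * (2 * (‖v‖ + ‖z‖)))) + ‖z‖ * (C3 * (‖z‖ * (2 * (‖v‖ + ‖z‖)))) :=
            add_le_add i1 i2
        _ = M := by rw [hM]; ring
    have hder : ∀ t ∈ Icc (0 : ℝ) 1, HasDerivWithinAt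
        (fun s : ℝ => f (v, s • z) - s * fderiv ℝ f (v, 0) (0, z))
        (fderiv ℝ f (v, t • z) (0, z) - fderiv ℝ f (v, 0) (0, z)) (Icc 0 1) t := by
      intro t ht
      have hm : ((v, t • z) : EE) ∈ ball (0 : EE) r :=
        ball_subset_ball ((min_le_left _ _).trans (hr2r.trans hr1r)) (hin t ht.1 ht.2)
      have a := hasDerivAt_seg (diffAt (by norm_num) hf hm)
      have b : HasDerivAt (fun s : ℝ => s * fderiv ℝ f (v, 0) (0, z))
          (fderiv ℝ f (v, 0) (0, z)) t := by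
        simpa using (hasDerivAt_id t).mul_const (fderiv ℝ f (v, 0) (0, z))
      exact (a.sub b).hasDerivWithinAt
    have hmv := (convex_Icc (0 : ℝ) 1).norm_image_sub_le_of_norm_hasDerivWithin_le
      (C := M) hder (fun t ht => by rw [Real.norm_eq_abs]; exact key t ht)
      (left_mem_Icc.2 zero_le_one) (right_mem_Icc.2 zero_le_one)
    have e : f (v, (1 : ℝ) • z) - 1 * fderiv ℝ f (v, 0) (0, z) -
        (f (v, (0 : ℝ) • z) - 0 * fderiv ℝ f (v, 0) (0, z)) =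
        f (v, z) - f (v, 0) - fderiv ℝ f (v, 0) (0, z) := by
      rw [one_smul, zero_smul]; ring
    rw [e, Real.norm_eq_abs] at hmv
    have hM2 : M ≤ (C1 + 2 * C2 + 2 * C3) * ((‖v‖ + ‖z‖) * ‖z‖ ^ 2) := by
      rw [hM]
      exact mul_le_mul_of_nonneg_right (by linarith) (by positivity)
    have : M * ‖(1 : ℝ) - 0‖ = M := by simp
    rw [this] at hmv
    exact hmv.trans hM2

/-- mixed differences -/
theorem tayB {f : EE → ℝ} {r : ℝ} (hr : 0 < r) (hf : ContDiffOn ℝ 6 f (ball 0 r)) :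
    ∃ C' r' : ℝ, 0 ≤ C' ∧ 0 < r' ∧ r' ≤ r ∧
      ∀ p ∈ ball (0 : EE) r', ∀ q ∈ ball (0 : EE) r',
        |(f p - f (p.1, 0)) - (f q - f (q.1, 0))| ≤
          C' * (‖p.2 - q.2‖ + ‖p.2‖ * ‖p.1 - q.1‖) := by
  have h0 : (0 : EE) ∈ ball (0 : EE) r := mem_ball_self hr
  have hfa : ContDiffAt ℝ 6 f 0 := hf.contDiffAt (isOpen_ball.mem_nhds h0)
  have hda : ContDiffAt ℝ 5 (fderiv ℝ f) 0 :=
    (hf.fderiv_of_isOpen isOpen_ball (by norm_num)).contDiffAt (isOpen_ball.mem_nhds h0)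
  obtain ⟨K1, t1, ht1, hK1⟩ := (hfa.of_le (by norm_num)).exists_lipschitzOnWith
  obtain ⟨K2, t2, ht2, hK2⟩ := (hda.of_le (by norm_num)).exists_lipschitzOnWith
  obtain ⟨r1, hr1, hs1⟩ := Metric.mem_nhds_iff.1 ht1
  obtain ⟨r2, hr2, hs2⟩ := Metric.mem_nhds_iff.1 ht2
  refine ⟨K1 + K2, min r (min r1 r2), by positivity, lt_min hr (lt_min hr1 hr2), min_le_left _ _,
    fun p hp q hq => ?_⟩
  obtain ⟨v, z⟩ := p
  obtain ⟨v', z'⟩ := q
  show |(f (v, z) - f (v, 0)) - (f (v', z') - f (v', 0))| ≤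
    ((K1 : ℝ) + K2) * (‖z - z'‖ + ‖z‖ * ‖v - v'‖)
  have m1 : ∀ x ∈ ball (0 : EE) (min r (min r1 r2)), x ∈ t1 := fun x hx =>
    hs1 (ball_subset_ball ((min_le_right _ _).trans (min_le_left _ _)) hx)
  have m2 : ∀ x ∈ ball (0 : EE) (min r (min r1 r2)), x ∈ t2 := fun x hx =>
    hs2 (ball_subset_ball ((min_le_right _ _).trans (min_le_right _ _)) hx)
  have m0 : ∀ x ∈ ball (0 : EE) (min r (min r1 r2)), x ∈ ball (0 : EE) r := fun x hx =>
    ball_subset_ball (min_le_left _ _) hx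
  have hvz : ((v', z) : EE) ∈ ball (0 : EE) (min r (min r1 r2)) := by
    rw [mem_ball_zero_iff] at *
    rw [Prod.norm_def] at *
    exact max_lt (lt_of_le_of_lt (le_max_left _ _) hq) (lt_of_le_of_lt (le_max_right _ _) hp)
  -- second difference
  have hB : |f (v', z) - f (v', z')| ≤ K1 * ‖z - z'‖ := by
    have a := hK1.dist_le_mul _ (m1 _ hvz) _ (m1 _ hq)
    rw [Real.dist_eq, dist_eq_norm] at a
    have : ((v', z) : EE) - (v', z') = (0, z - z') := by simp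
    rw [this] at a
    have e : ‖((0, z - z') : EE)‖ = ‖z - z'‖ := by rw [Prod.norm_def]; simp
    rwa [e] at a
  have hA : |(f (v, z) - f (v', z)) - (f (v, 0) - f (v', 0))| ≤ K2 * (‖z‖ * ‖v - v'‖) := by
    have hder : ∀ t ∈ Icc (0 : ℝ) 1, HasDerivWithinAt
        (fun s : ℝ => f (v, s • z) - f (v', s • z))
        (fderiv ℝ f (v, t • z) (0, z) - fderiv ℝ f (v', t • z) (0, z)) (Icc 0 1) t := by
      intro t ht
      have a := hasDerivAt_seg (diffAt (by norm_num) hf (m0 _ (seg_mem hp ht.1 ht.2)))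
      have b := hasDerivAt_seg (diffAt (by norm_num) hf (m0 _ (seg_mem hvz ht.1 ht.2)))
      exact (a.sub b).hasDerivWithinAt
    have hbd : ∀ t ∈ Icc (0 : ℝ) 1,
        ‖fderiv ℝ f (v, t • z) (0, z) - fderiv ℝ f (v', t • z) (0, z)‖ ≤
          K2 * (‖z‖ * ‖v - v'‖) := by
      intro t ht
      have a := hK2.dist_le_mul _ (m2 _ (seg_mem hp ht.1 ht.2)) _ (m2 _ (seg_mem hvz ht.1 ht.2))
      rw [dist_eq_norm, dist_eq_norm] at a
      have e : ‖((v, t • z) : EE) - (v', t • z)‖ = ‖v - v'‖ := by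
        have : ((v, t • z) : EE) - (v', t • z) = (v - v', 0) := by simp
        rw [this, Prod.norm_def]; simp
      rw [e] at a
      have b := (fderiv ℝ f (v, t • z) - fderiv ℝ f (v', t • z)).le_opNorm (0, z)
      have e2 : ‖((0, z) : EE)‖ = ‖z‖ := by rw [Prod.norm_def]; simp
      rw [e2] at b
      calc ‖fderiv ℝ f (v, t • z) (0, z) - fderiv ℝ f (v', t • z) (0, z)‖
          = ‖(fderiv ℝ f (v, t • z) - fderiv ℝ f (v', t • z)) (0, z)‖ := by
            rfl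
        _ ≤ _ := b
        _ ≤ (K2 * ‖v - v'‖) * ‖z‖ := mul_le_mul_of_nonneg_right a (norm_nonneg _)
        _ = _ := by ring
    have hmv := (convex_Icc (0 : ℝ) 1).norm_image_sub_le_of_norm_hasDerivWithin_le hder hbd
      (left_mem_Icc.2 zero_le_one) (right_mem_Icc.2 zero_le_one)
    have e : f (v, (1 : ℝ) • z) - f (v', (1 : ℝ) • z) -
        (f (v, (0 : ℝ) • z) - f (v', (0 : ℝ) • z)) =
        (f (v, z) - f (v', z)) - (f (v, 0) - f (v', 0)) := by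
      rw [one_smul, zero_smul]
    rw [e, Real.norm_eq_abs] at hmv
    simpa using hmv
  calc |(f (v, z) - f (v, 0)) - (f (v', z') - f (v', 0))|
      = |((f (v, z) - f (v', z)) - (f (v, 0) - f (v', 0))) + (f (v', z) - f (v', z'))| := by
        congr 1; ring
    _ ≤ _ := abs_add_le _ _
    _ ≤ K2 * (‖z‖ * ‖v - v'‖) + K1 * ‖z - z'‖ := add_le_add hA hB
    _ ≤ ((K1 : ℝ) + K2) * (‖z - z'‖ + ‖z‖ * ‖v - v'‖) := by
        have a1 : 0 ≤ (K1 : ℝ) * (‖z‖ * ‖v - v'‖) := by positivity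
        have a2 : 0 ≤ (K2 : ℝ) * ‖z - z'‖ := by positivity
        nlinarith

theorem contDiff_tcc : ContDiff ℝ ⊤ tcc := by
  have a1 : ContDiff ℝ ⊤ (fun p : EE => k3 p.1) := by
    unfold k3; exact Complex.reCLM.contDiff.comp (contDiff_fst.comp contDiff_fst)
  have a2 : ContDiff ℝ ⊤ (fun p : EE => s3 p.1) := by
    unfold s3; exact (Complex.imCLM.contDiff.comp (contDiff_fst.comp contDiff_fst)).neg
  have a3 : ContDiff ℝ ⊤ (fun p : EE => k5 p.1) := by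
    unfold k5; exact Complex.reCLM.contDiff.comp (contDiff_snd.comp contDiff_fst)
  have a4 : ContDiff ℝ ⊤ (fun p : EE => s5 p.1) := by
    unfold s5; exact (Complex.imCLM.contDiff.comp (contDiff_snd.comp contDiff_fst)).neg
  unfold tcc
  fun_prop

theorem contDiff_lsp : ContDiff ℝ ⊤ lsp := by
  have a1 : ContDiff ℝ ⊤ (fun p : EE => k3 p.1) := by
    unfold k3; exact Complex.reCLM.contDiff.comp (contDiff_fst.comp contDiff_fst)
  have a2 : ContDiff ℝ ⊤ (fun p : EE => s3 p.1) := by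
    unfold s3; exact (Complex.imCLM.contDiff.comp (contDiff_fst.comp contDiff_fst)).neg
  have a3 : ContDiff ℝ ⊤ (fun p : EE => k5 p.1) := by
    unfold k5; exact Complex.reCLM.contDiff.comp (contDiff_snd.comp contDiff_fst)
  have a4 : ContDiff ℝ ⊤ (fun p : EE => s5 p.1) := by
    unfold s5; exact (Complex.imCLM.contDiff.comp (contDiff_snd.comp contDiff_fst)).neg
  unfold lsp
  fun_prop

theorem contDiff_lsm : ContDiff ℝ ⊤ lsm := by
  have a1 : ContDiff ℝ ⊤ (fun p : EE => k3 p.1) := by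
    unfold k3; exact Complex.reCLM.contDiff.comp (contDiff_fst.comp contDiff_fst)
  have a2 : ContDiff ℝ ⊤ (fun p : EE => s3 p.1) := by
    unfold s3; exact (Complex.imCLM.contDiff.comp (contDiff_fst.comp contDiff_fst)).neg
  have a3 : ContDiff ℝ ⊤ (fun p : EE => k5 p.1) := by
    unfold k5; exact Complex.reCLM.contDiff.comp (contDiff_snd.comp contDiff_fst)
  have a4 : ContDiff ℝ ⊤ (fun p : EE => s5 p.1) := by
    unfold s5; exact (Complex.imCLM.contDiff.comp (contDiff_snd.comp contDiff_fst)).neg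
  unfold lsm
  fun_prop

theorem cc_contDiffOn {r : ℝ} {sp : EE → ℝ} (h : ContDiffOn ℝ 6 sp (ball 0 r)) :
    ContDiffOn ℝ 6 (cc sp) (ball 0 r) := by
  have h1 : ContDiffOn ℝ 6 (fun p : EE => (p.1, sp p)) (ball 0 r) := contDiffOn_fst.prodMk h
  have h2 : ContDiffOn ℝ 6 (fun p : EE => zh p.1 (sp p)) (ball 0 r) :=
    (contDiff_zh.of_le le_top).comp_contDiffOn h1
  have h3 : ContDiffOn ℝ 6 (fun p : EE => ((1 + p.2.1 : ℝ) : ℂ)) (ball 0 r) := by
    have : ContDiff ℝ 6 (fun p : EE => ((1 + p.2.1 : ℝ) : ℂ)) :=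
      Complex.ofRealCLM.contDiff.comp (contDiff_const.add (contDiff_fst.comp contDiff_snd))
    exact this.contDiffOn
  exact Complex.reCLM.contDiff.comp_contDiffOn (h3.mul h2)

theorem dtcc1 (p : EE) : fderiv ℝ tcc p e1 = 1 + (2 * k3 p.1 + Real.sqrt 3 * s3 p.1
    - 17 / 2 * k5 p.1 - Real.sqrt 3 / 2 * s5 p.1) - 5 / 3 * p.2.1 - 4 / 3 * p.2.2 := by
  have hd : DifferentiableAt ℝ tcc p := contDiff_tcc.differentiable (by simp) p
  have hl : HasDerivAt (fun t : ℝ => p + t • e1) e1 0 := by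
    simpa using ((hasDerivAt_id (0 : ℝ)).smul_const e1).const_add p
  have h1 : HasDerivAt (fun t : ℝ => tcc (p + t • e1)) (fderiv ℝ tcc p e1) 0 := by
    have hd' : HasFDerivAt tcc (fderiv ℝ tcc p) (p + (0 : ℝ) • e1) := by
      simpa using hd.hasFDerivAt
    exact hd'.comp_hasDerivAt (0 : ℝ) hl
  set a : ℝ := 1 + (2 * k3 p.1 + Real.sqrt 3 * s3 p.1
    - 17 / 2 * k5 p.1 - Real.sqrt 3 / 2 * s5 p.1) - 5 / 3 * p.2.1 - 4 / 3 * p.2.2 with ha
  have h2 : HasDerivAt (fun t : ℝ => tcc p + a * t - 5 / 6 * t ^ 2) a 0 := by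
    have b1 := ((hasDerivAt_id (0 : ℝ)).const_mul a).const_add (tcc p)
    have b2 := ((hasDerivAt_id (0 : ℝ)).pow 2).const_mul (5 / 6 : ℝ)
    have b : HasDerivAt (fun t : ℝ => tcc p + a * t - 5 / 6 * t ^ 2) _ 0 := b1.sub b2
    convert b using 1
    simp
  have e : (fun t : ℝ => tcc (p + t • e1)) = fun t : ℝ => tcc p + a * t - 5 / 6 * t ^ 2 := by
    funext t
    rw [ha]
    simp [tcc, e1, k3, s3, k5, s5]
    ring
  rw [e] at h1
  exact h1.unique h2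

theorem dtcc2 (p : EE) : fderiv ℝ tcc p e2 = 1 + (2 * k3 p.1 - Real.sqrt 3 * s3 p.1
    - 17 / 2 * k5 p.1 + Real.sqrt 3 / 2 * s5 p.1) - 5 / 3 * p.2.2 - 4 / 3 * p.2.1 := by
  have hd : DifferentiableAt ℝ tcc p := contDiff_tcc.differentiable (by simp) p
  have hl : HasDerivAt (fun t : ℝ => p + t • e2) e2 0 := by
    simpa using ((hasDerivAt_id (0 : ℝ)).smul_const e2).const_add p
  have h1 : HasDerivAt (fun t : ℝ => tcc (p + t • e2)) (fderiv ℝ tcc p e2) 0 := by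
    have hd' : HasFDerivAt tcc (fderiv ℝ tcc p) (p + (0 : ℝ) • e2) := by
      simpa using hd.hasFDerivAt
    exact hd'.comp_hasDerivAt (0 : ℝ) hl
  set a : ℝ := 1 + (2 * k3 p.1 - Real.sqrt 3 * s3 p.1
    - 17 / 2 * k5 p.1 + Real.sqrt 3 / 2 * s5 p.1) - 5 / 3 * p.2.2 - 4 / 3 * p.2.1 with ha
  have h2 : HasDerivAt (fun t : ℝ => tcc p + a * t - 5 / 6 * t ^ 2) a 0 := by
    have b1 := ((hasDerivAt_id (0 : ℝ)).const_mul a).const_add (tcc p)
    have b2 := ((hasDerivAt_id (0 : ℝ)).pow 2).const_mul (5 / 6 : ℝ)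
    have b : HasDerivAt (fun t : ℝ => tcc p + a * t - 5 / 6 * t ^ 2) _ 0 := b1.sub b2
    convert b using 1
    simp
  have e : (fun t : ℝ => tcc (p + t • e2)) = fun t : ℝ => tcc p + a * t - 5 / 6 * t ^ 2 := by
    funext t
    rw [ha]
    simp [tcc, e2, k3, s3, k5, s5]
    ring
  rw [e] at h1
  exact h1.unique h2

/-- the exact expansion of `tcc` -/
theorem tcc_exp (v : ℂ × ℂ) (z : ℝ × ℝ) : tcc (v, z) = tcc (v, 0) + fderiv ℝ tcc (v, 0) (0, z)
    - 5 / 6 * (z.1 ^ 2 + z.2 ^ 2) - 4 / 3 * (z.1 * z.2) := by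
  rw [lin_dec, dtcc1, dtcc2]
  simp only [tcc, Prod.fst_zero, Prod.snd_zero]
  ring

theorem dir_base {f : EE → ℝ} {r : ℝ} (hf : ContDiffOn ℝ 6 f (ball 0 r)) (e : EE) :
    ContDiffOn ℝ 4 (fun v : ℂ × ℂ => fderiv ℝ f (v, 0) e) (ball 0 r) := by
  have h := dir_contDiffOn (hf.of_le (by norm_num) : ContDiffOn ℝ 5 f (ball 0 r)) e
  have hi : ContDiff ℝ 4 (fun v : ℂ × ℂ => ((v, 0) : EE)) := contDiff_id.prodMk contDiff_const
  refine h.comp hi.contDiffOn ?_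
  intro v hv
  rw [mem_ball_zero_iff] at *
  rwa [norm_zero_snd]

/-- first order differences -/
theorem tayC (h₁ : StSof) {s l : EE → ℝ} {r C c : ℝ} (hr : 0 < r) (hs : ContDiffOn ℝ 6 s (ball 0 r))
    (hl : ContDiff ℝ ⊤ l) (h : ∀ p ∈ ball (0 : EE) r, |s p - (c + l p)| ≤ C * ‖p‖ ^ 2) :
    ∃ C' r' : ℝ, 0 ≤ C' ∧ 0 < r' ∧ r' ≤ r ∧ ∀ p ∈ ball (0 : EE) r',
      |s p - s (p.1, 0) - (l p - l (p.1, 0))| ≤ C' * ((‖p.1‖ + ‖p.2‖) * ‖p.2‖) := by
  have hg : ContDiffOn ℝ 4 (fun p => s p - (c + l p)) (ball 0 r) :=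
    (hs.of_le (by norm_num)).sub (contDiff_const.add (hl.of_le le_top)).contDiffOn
  obtain ⟨C1, r1, hC1, hr1, hr1r, -, h2⟩ := h₁ EE (fun p => s p - (c + l p)) r C 2 hr (le_refl 2)
    (by norm_num) hg h
  refine ⟨2 * C1, r1, by positivity, hr1, hr1r, fun p hp => ?_⟩
  obtain ⟨v, z⟩ := p
  have h3 := h2 (v, z) hp (v, 0) (zero_mem' hp)
  have e1 : ‖((v, z) : EE) - (v, 0)‖ = ‖z‖ := by
    have : ((v, z) : EE) - (v, 0) = (0, z) := by simp
    rw [this, Prod.norm_def]; simp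
  have e2 : ‖((v, z) : EE)‖ + ‖((v, 0) : EE)‖ ≤ 2 * (‖v‖ + ‖z‖) := by
    have b := norm_le_add ((v, z) : EE)
    have c := norm_zero_snd v
    simp only at b
    linarith [norm_nonneg z]
  rw [e1] at h3
  show |s (v, z) - s (v, 0) - (l (v, z) - l (v, 0))| ≤ 2 * C1 * ((‖v‖ + ‖z‖) * ‖z‖)
  calc |s (v, z) - s (v, 0) - (l (v, z) - l (v, 0))|
      = |s (v, z) - (c + l (v, z)) - (s (v, 0) - (c + l (v, 0)))| := by congr 1; ring
    _ ≤ C1 * (‖z‖ * (‖((v, z) : EE)‖ + ‖((v, 0) : EE)‖) ^ (2 - 1)) := h3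
    _ ≤ C1 * (‖z‖ * (2 * (‖v‖ + ‖z‖))) := by
        rw [show (2 - 1 : ℕ) = 1 by norm_num, pow_one]
        gcongr
    _ = _ := by ring

theorem hTAY (h₁ : StSof) (h₂ : StJet) : StTay := by
  intro r sp sm hc
  obtain ⟨C0, r0, hC0, hr0, hr0r, hJ⟩ := h₂ r sp sm hc
  have hsp : ContDiffOn ℝ 6 sp (ball 0 r0) := hc.cp.mono (ball_subset_ball hr0r)
  have hsm : ContDiffOn ℝ 6 sm (ball 0 r0) := hc.cm.mono (ball_subset_ball hr0r)
  have hcc : ContDiffOn ℝ 6 (cc sp) (ball 0 r0) := cc_contDiffOn hsp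
  have hf : ContDiffOn ℝ 5 (fun p => cc sp p - tcc p) (ball 0 r0) :=
    (hcc.of_le (by norm_num)).sub (contDiff_tcc.of_le le_top).contDiffOn
  obtain ⟨C1, r1, hC1, hr1, hr1r, hA1, hA2⟩ := tayA h₁ hr0 hf (fun p hp => (hJ p hp).2.2)
  obtain ⟨C2, r2, hC2, hr2, hr2r, hB⟩ := tayB hr0 hsp
  obtain ⟨C3, r3, hC3, hr3, hr3r, hB'⟩ := tayB hr0 hsm
  obtain ⟨C4, r4, hC4, hr4, hr4r, hD⟩ := tayC h₁ hr0 hsp contDiff_lsp (fun p hp => (hJ p hp).1)
  obtain ⟨C5, r5, hC5, hr5, hr5r, hD'⟩ := tayC (l := lsm) (c := -(Real.pi / 3)) h₁ hr0 hsm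
    contDiff_lsm (fun p hp => (hJ p hp).2.1)
  set R : ℝ := min r1 (min r2 (min r3 (min r4 r5))) with hR
  have hR1 : R ≤ r1 := min_le_left _ _
  have hR2 : R ≤ r2 := (min_le_right _ _).trans (min_le_left _ _)
  have hR3 : R ≤ r3 := (min_le_right _ _).trans ((min_le_right _ _).trans (min_le_left _ _))
  have hR4 : R ≤ r4 := (min_le_right _ _).trans ((min_le_right _ _).trans
    ((min_le_right _ _).trans (min_le_left _ _)))
  have hR5 : R ≤ r5 := (min_le_right _ _).trans ((min_le_right _ _).trans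
    ((min_le_right _ _).trans (min_le_right _ _)))
  have hRpos : 0 < R := lt_min hr1 (lt_min hr2 (lt_min hr3 (lt_min hr4 hr5)))
  set CC : ℝ := 1 + C1 + C2 + C3 + C4 + C5 with hCC
  have hfd : ∀ p ∈ ball (0 : EE) R, ∀ e : EE,
      fderiv ℝ (fun p => cc sp p - tcc p) p e = fderiv ℝ (cc sp) p e - fderiv ℝ tcc p e := by
    intro p hp e
    have hp0 : p ∈ ball (0 : EE) r0 := ball_subset_ball (hR1.trans hr1r) hp
    have hsub := ((diffAt (by norm_num) hcc hp0).hasFDerivAt.sub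
      (contDiff_tcc.differentiable (by simp) p).hasFDerivAt).fderiv
    have : fderiv ℝ (fun p => cc sp p - tcc p) p = fderiv ℝ (cc sp) p - fderiv ℝ tcc p := hsub
    rw [this]; rfl
  have hbase : ∀ v ∈ ball (0 : ℂ × ℂ) R, ((v, 0) : EE) ∈ ball (0 : EE) R := by
    intro v hv
    rw [mem_ball_zero_iff] at *
    rwa [norm_zero_snd]
  have hk : ∀ v ∈ ball (0 : ℂ × ℂ) R, ∀ e : EE, ‖e‖ = 1 →
      |fderiv ℝ (cc sp) (v, 0) e - fderiv ℝ tcc (v, 0) e| ≤ CC * ‖v‖ ^ 2 := by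
    intro v hv e he
    have hm := hbase v hv
    rw [← hfd _ hm e]
    have a := (fderiv ℝ (fun p => cc sp p - tcc p) (v, 0)).le_opNorm e
    rw [he, mul_one, Real.norm_eq_abs] at a
    have b := hA1 (v, 0) (ball_subset_ball hR1 hm)
    rw [norm_zero_snd] at b
    refine a.trans (b.trans ?_)
    exact mul_le_mul_of_nonneg_right (by rw [hCC]; linarith) (by positivity)
  have hkp : ∀ v ∈ ball (0 : ℂ × ℂ) R, |fderiv ℝ (cc sp) (v, 0) e1 - (1 + (2 * k3 v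
      + Real.sqrt 3 * s3 v - 17 / 2 * k5 v - Real.sqrt 3 / 2 * s5 v))| ≤ CC * ‖v‖ ^ 2 := by
    intro v hv
    have a := hk v hv e1 norm_e1
    rw [dtcc1] at a
    simpa using a
  have hkm : ∀ v ∈ ball (0 : ℂ × ℂ) R, |fderiv ℝ (cc sp) (v, 0) e2 - (1 + (2 * k3 v
      - Real.sqrt 3 * s3 v - 17 / 2 * k5 v + Real.sqrt 3 / 2 * s5 v))| ≤ CC * ‖v‖ ^ 2 := by
    intro v hv
    have a := hk v hv e2 norm_e2
    rw [dtcc2] at a
    simpa using a
  have hcR : ContDiffOn ℝ 6 (cc sp) (ball 0 R) :=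
    hcc.mono (ball_subset_ball (hR1.trans hr1r))
  refine ⟨R, CC, fun v => fderiv ℝ (cc sp) (v, 0) e1, fun v => fderiv ℝ (cc sp) (v, 0) e2,
    (hR1.trans hr1r).trans hr0r, ?_⟩
  refine
    { pos := hRpos
      posC := by rw [hCC]; positivity
      cp := dir_base hcR e1
      cm := dir_base hcR e2
      vp := ?_
      vm := ?_
      kp := hkp
      km := hkm
      tc := ?_
      tp := ?_
      tm := ?_
      lp := ?_
      lm := ?_ }
  · have a := hkp 0 (mem_ball_self hRpos)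
    simp [k3, s3, k5, s5] at a
    have b : fderiv ℝ (cc sp) ((0 : ℂ × ℂ), (0 : ℝ × ℝ)) e1 - 1 = 0 := by
      simpa using a
    show fderiv ℝ (cc sp) ((0 : ℂ × ℂ), (0 : ℝ × ℝ)) e1 = 1
    linarith
  · have a := hkm 0 (mem_ball_self hRpos)
    simp [k3, s3, k5, s5] at a
    have b : fderiv ℝ (cc sp) ((0 : ℂ × ℂ), (0 : ℝ × ℝ)) e2 - 1 = 0 := by
      simpa using a
    show fderiv ℝ (cc sp) ((0 : ℂ × ℂ), (0 : ℝ × ℝ)) e2 = 1
    linarith
  · intro p hp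
    obtain ⟨v, z⟩ := p
    have hm : ((v, 0) : EE) ∈ ball (0 : EE) R := zero_mem' hp
    have a := hA2 (v, z) (ball_subset_ball hR1 hp)
    simp only at a
    rw [hfd _ hm] at a
    have b := tcc_exp v z
    have c := lin_dec (fderiv ℝ (cc sp) (v, 0)) z
    show |cc sp (v, z) - (cc sp (v, 0) + fderiv ℝ (cc sp) (v, 0) e1 * z.1
      + fderiv ℝ (cc sp) (v, 0) e2 * z.2 - 5 / 6 * (z.1 ^ 2 + z.2 ^ 2) - 4 / 3 * (z.1 * z.2))| ≤
      CC * ((‖v‖ + ‖z‖) * ‖z‖ ^ 2)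
    have e : cc sp (v, z) - (cc sp (v, 0) + fderiv ℝ (cc sp) (v, 0) e1 * z.1
      + fderiv ℝ (cc sp) (v, 0) e2 * z.2 - 5 / 6 * (z.1 ^ 2 + z.2 ^ 2) - 4 / 3 * (z.1 * z.2)) =
      cc sp (v, z) - tcc (v, z) - (cc sp (v, 0) - tcc (v, 0)) -
        (fderiv ℝ (cc sp) (v, 0) (0, z) - fderiv ℝ tcc (v, 0) (0, z)) := by
      rw [b, c]; ring
    rw [e]
    refine a.trans (mul_le_mul_of_nonneg_right (by rw [hCC]; linarith) (by positivity))
  · intro p hp
    obtain ⟨v, z⟩ := p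
    have a := hD (v, z) (ball_subset_ball hR4 hp)
    simp only at a
    show |sp (v, z) - sp (v, 0) + (z.1 + 2 * z.2) / Real.sqrt 3| ≤ CC * ((‖v‖ + ‖z‖) * ‖z‖)
    have e : sp (v, z) - sp (v, 0) + (z.1 + 2 * z.2) / Real.sqrt 3 =
        sp (v, z) - sp (v, 0) - (lsp (v, z) - lsp (v, 0)) := by
      simp only [lsp, Prod.fst_zero, Prod.snd_zero]; ring
    rw [e]
    refine a.trans (mul_le_mul_of_nonneg_right (by rw [hCC]; linarith) (by positivity))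
  · intro p hp
    obtain ⟨v, z⟩ := p
    have a := hD' (v, z) (ball_subset_ball hR5 hp)
    simp only at a
    show |sm (v, z) - sm (v, 0) - (2 * z.1 + z.2) / Real.sqrt 3| ≤ CC * ((‖v‖ + ‖z‖) * ‖z‖)
    have e : sm (v, z) - sm (v, 0) - (2 * z.1 + z.2) / Real.sqrt 3 =
        sm (v, z) - sm (v, 0) - (lsm (v, z) - lsm (v, 0)) := by
      simp only [lsm, Prod.fst_zero, Prod.snd_zero]; ring
    rw [e]
    refine a.trans (mul_le_mul_of_nonneg_right (by rw [hCC]; linarith) (by positivity))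
  · intro p hp q hq
    refine (hB p (ball_subset_ball hR2 hp) q (ball_subset_ball hR2 hq)).trans ?_
    exact mul_le_mul_of_nonneg_right (by rw [hCC]; linarith) (by positivity)
  · intro p hp q hq
    refine (hB' p (ball_subset_ball hR3 hp) q (ball_subset_ball hR3 hq)).trans ?_
    exact mul_le_mul_of_nonneg_right (by rw [hCC]; linarith) (by positivity)

end Pool.Agent.Helper67.LT
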